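import Pool.Agent.K3h22.EX.Stm7

set_option autoImplicit false

/-! # Hyperplane section of a prime ideal (brick CUT1 of project ET of helper22) -/

namespace Pool.Agent.K3h69.ET

open MvPolynomial Pool.Agent.K3h22.EX

variable {σ : Type} [DecidableEq σ]

/-- specialisation `x_b = c` -/
noncomputable def sb (b : σ) (c : ℂ) : MvPolynomial σ ℂ →ₐ[ℂ] MvPolynomial σ ℂ :=
  bind₁ fun i => if i = b then C c else X i

lemma sb_vars (b : σ) (c : ℂ) {f : MvPolynomial σ ℂ} {J : Finset σ} (h : f.vars ⊆ J) :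
    (sb b c f).vars ⊆ J.erase b := by
  intro i hi
  have hi' := vars_bind₁ _ f hi
  rw [Finset.mem_biUnion] at hi'
  obtain ⟨j, hj, hi⟩ := hi'
  by_cases hjb : j = b
  · rw [if_pos hjb, vars_C] at hi
    simp at hi
  · rw [if_neg hjb, vars_X, Finset.mem_singleton] at hi
    subst hi
    exact Finset.mem_erase.2 ⟨hjb, h hj⟩

lemma sb_eval (b : σ) (a : σ → ℂ) (f : MvPolynomial σ ℂ) : eval a (sb b (a b) f) = eval a f := by
  have h : (eval a).comp (sb b (a b)).toRingHom = eval a := by
    apply MvPolynomial.ringHom_ext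
    · intro r
      simp [sb]
    · intro i
      simp only [RingHom.comp_apply]
      show eval a (sb b (a b) (X i)) = _
      unfold sb
      rw [bind₁_X_right]
      split_ifs with h
      · rw [h, eval_C, eval_X]
      · rfl
  exact congrArg (fun g => g f) h

lemma sb_self (b : σ) (c : ℂ) {f : MvPolynomial σ ℂ} (h : b ∉ f.vars) : sb b c f = f := by
  have := MvPolynomial.hom_congr_vars (f₁ := (sb b c).toRingHom) (f₂ := RingHom.id _)
    (p₁ := f) (p₂ := f) (by
      ext r
      simp [sb]) (by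
      intro i hi _
      show sb b c (X i) = X i
      unfold sb
      rw [bind₁_X_right, if_neg]
      rintro rfl
      exact h hi) rfl
  exact this

section
variable {K : Type} [Field K] [Algebra ℂ K] (P : Ideal (MvPolynomial σ ℂ))
  (e : MvPolynomial σ ℂ →ₐ[ℂ] K)

omit [DecidableEq σ] in
lemma indep_iff (hker : ∀ f, e f = 0 ↔ f ∈ P) (J : Finset σ) :
    IndepI P J ↔ AlgebraicIndepOn ℂ (fun v => e (X v)) (J : Set σ) := by
  classical
  have he : ∀ p : MvPolynomial (J : Set σ) ℂ, e (rename Subtype.val p) =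
      aeval (fun i : (J : Set σ) => e (X i.1)) p := by
    intro p
    have : e.comp (rename Subtype.val) = aeval (fun i : (J : Set σ) => e (X i.1)) := by
      apply MvPolynomial.algHom_ext
      intro i
      simp
    exact congrArg (fun g => g p) this
  unfold AlgebraicIndepOn
  rw [algebraicIndependent_iff]
  constructor
  · intro h p hp
    have h1 : (rename Subtype.val p : MvPolynomial σ ℂ) ∈ P := by
      rw [← hker, he]
      exact hp
    have h2 : (rename Subtype.val p : MvPolynomial σ ℂ).vars ⊆ J := by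
      intro i hi
      have := vars_rename _ _ hi
      rw [Finset.mem_image] at this
      obtain ⟨j, _, rfl⟩ := this
      exact j.2
    have h3 := h _ h2 h1
    exact rename_injective _ Subtype.val_injective (by rw [h3, map_zero])
  · intro h f hf hfP
    have hsub : (f.vars : Set σ) ⊆ Set.range (Subtype.val : (↑J : Set σ) → σ) := by
      rw [Subtype.range_coe]
      exact_mod_cast hf
    obtain ⟨q, hq⟩ := exists_rename_eq_of_vars_subset_range f (Subtype.val : (↑J : Set σ) → σ)
      Subtype.val_injective hsub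
    have h1 : q = 0 := h q (by
      show aeval (fun i : (J : Set σ) => e (X i.1)) q = 0
      rw [← he, hq, hker]
      exact hfP)
    rw [← hq, h1, map_zero]

lemma exists_mult {A : Subalgebra ℂ K} {ι : Type} [Fintype ι] (z : ι → K)
    (h : ∀ i, IsAlgebraic A (z i)) : ∃ y : A, y ≠ 0 ∧ ∀ i, IsIntegral A (y • z i) := by
  classical
  choose r hr int using fun i => (h i).exists_integral_multiple
  refine ⟨∏ i, r i, Finset.prod_ne_zero_iff.mpr fun i _ => hr i, fun i => ?_⟩
  rw [← Finset.prod_erase_mul _ _ (Finset.mem_univ i), mul_smul]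
  exact (int i).smul _

/-- the valuation ring of a hyperplane section -/
lemma exists_val (hker : ∀ f, e f = 0 ↔ f ∈ P) (B : Finset σ) (hB : IndepI P B) (b : σ) (c : ℂ) :
    ∃ V : ValuationSubring K, (∀ f : MvPolynomial σ ℂ, f.vars ⊆ B → e f ∈ V) ∧
      (∀ f : MvPolynomial σ ℂ, f.vars ⊆ B → sb b c f ≠ 0 → (e f)⁻¹ ∈ V) ∧
      ∀ f : MvPolynomial σ ℂ, f.vars ⊆ B → sb b c f = 0 → ∀ h : e f ∈ V,
        ¬ IsUnit (⟨e f, h⟩ : V) := by
  classical
  obtain ⟨e', he'⟩ : ∃ e' : supported ℂ (B : Set σ) →+* K,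
    e' = e.toRingHom.comp (supported ℂ (B : Set σ)).val.toRingHom := ⟨_, rfl⟩
  have he1 : ∀ f, e' f = e f.1 := by
    intro f
    rw [he']
    rfl
  have hinj : Function.Injective e' := by
    rw [injective_iff_map_eq_zero]
    intro f hf
    rw [he1, hker] at hf
    have h1 := mem_supported.1 f.2
    exact Subtype.ext (hB f.1 (by exact_mod_cast h1) hf)
  obtain ⟨q, hq⟩ : ∃ q : supported ℂ (B : Set σ) ≃+* e'.range, ∀ f, (q f : K) = e' f :=
    ⟨RingEquiv.ofBijective e'.rangeRestrict ⟨fun x y h => hinj (congrArg Subtype.val h),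
      e'.rangeRestrict_surjective⟩, fun f => rfl⟩
  obtain ⟨t, ht⟩ : ∃ t : e'.range →+* MvPolynomial σ ℂ, ∀ f, t (q f) = sb b c f.1 :=
    ⟨((sb b c).toRingHom.comp (supported ℂ (B : Set σ)).val.toRingHom).comp q.symm.toRingHom, by
      intro f
      show sb b c (q.symm (q f)).1 = _
      rw [RingEquiv.symm_apply_apply]⟩
  have hM : (RingHom.ker t).IsPrime := RingHom.ker_isPrime t
  obtain ⟨V, hV⟩ := (LocalSubring.ofPrime e'.range (RingHom.ker t)).exists_le_valuationSubring
  have hle := LocalSubring.le_ofPrime e'.range (RingHom.ker t)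
  have hmem : ∀ f : MvPolynomial σ ℂ, f.vars ⊆ B → ∃ g : e'.range, (g : K) = e f ∧
      t g = sb b c f := by
    intro f hf
    have hf' : f ∈ supported ℂ (B : Set σ) := mem_supported.2 (by exact_mod_cast hf)
    refine ⟨q ⟨f, hf'⟩, ?_, ht _⟩
    rw [hq, he1]
  have hun : ∀ g : e'.range, IsUnit (algebraMap e'.range
      (LocalSubring.ofPrime e'.range (RingHom.ker t)).toSubring g) ↔ t g ≠ 0 := by
    intro g
    rw [IsLocalization.AtPrime.isUnit_to_map_iff _ (RingHom.ker t)]
    show g ∉ RingHom.ker t ↔ _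
    rw [RingHom.mem_ker]
  refine ⟨V, ?_, ?_, ?_⟩
  · intro f hf
    obtain ⟨g, hg, -⟩ := hmem f hf
    rw [← hg]
    exact hV.1 (hle g.2)
  · intro f hf h0
    obtain ⟨g, hg, hg2⟩ := hmem f hf
    obtain ⟨u, hu⟩ := isUnit_iff_exists_inv.1 ((hun g).2 (by rw [hg2]; exact h0))
    have h1 : (g : K) * (u : K) = 1 := congrArg Subtype.val hu
    have h2 : (e f)⁻¹ = u := by
      rw [← hg]
      exact inv_eq_of_mul_eq_one_right h1
    rw [h2]
    exact hV.1 u.2
  · intro f hf h0 h hu
    obtain ⟨g, hg, hg2⟩ := hmem f hf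
    have h1 : IsUnit (Subring.inclusion hV.1 (algebraMap e'.range
      (LocalSubring.ofPrime e'.range (RingHom.ker t)).toSubring g)) := by
      have h2 : (⟨e f, h⟩ : V) = Subring.inclusion hV.1 (algebraMap e'.range
        (LocalSubring.ofPrime e'.range (RingHom.ker t)).toSubring g) := Subtype.ext hg.symm
      rw [h2] at hu
      exact hu
    have h3 := hV.2.map_nonunit _ h1
    rw [hun, hg2] at h3
    exact h3 h0

/-- the hyperplane section -/
lemma main (hker : ∀ f, e f = 0 ↔ f ∈ P) [Fintype σ] (B : Finset σ) (hB : BasisI P B) (b : σ)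
    (hb : b ∈ B) (H : MvPolynomial σ ℂ) (hH : H ∉ P) :
    ∃ P' : Ideal (MvPolynomial σ ℂ), P'.IsPrime ∧ P ≤ P' ∧ H ∉ P' ∧ BasisI P' (B.erase b) := by
  classical
  obtain ⟨A, hA⟩ : ∃ A : Subalgebra ℂ K,
    A = Algebra.adjoin ℂ ((fun v => e (X v)) '' (B : Set σ)) := ⟨_, rfl⟩
  have hAmem : ∀ y ∈ A, ∃ f : MvPolynomial σ ℂ, f.vars ⊆ B ∧ e f = y := by
    intro y hy
    have h1 : A = (supported ℂ (B : Set σ)).map e := by
      rw [hA, supported, AlgHom.map_adjoin, Set.image_image]
    rw [h1] at hy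
    obtain ⟨f, hf, rfl⟩ := Subalgebra.mem_map.1 hy
    exact ⟨f, by exact_mod_cast mem_supported.1 hf, rfl⟩
  have hXA : ∀ v ∈ B, e (X v) ∈ A := by
    intro v hv
    rw [hA]
    exact Algebra.subset_adjoin ⟨v, hv, rfl⟩
  -- the coordinates are algebraic
  have halg : ∀ v, IsAlgebraic A (e (X v)) := by
    intro v
    by_cases hv : v ∈ B
    · exact isAlgebraic_algebraMap (⟨e (X v), hXA v hv⟩ : A)
    · have h1 := hB.2 v hv
      rw [indep_iff P e hker, Finset.coe_insert, AlgebraicIndepOn.insert_iff (by exact_mod_cast hv),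
        ← indep_iff P e hker, ← hA] at h1
      by_contra h2
      exact h1 ⟨hB.1, h2⟩
  have halgp : ∀ p : MvPolynomial σ ℂ, IsAlgebraic A (e p) := by
    intro p
    induction p using MvPolynomial.induction_on with
    | C r =>
      have h1 : e (C r) = algebraMap A K (algebraMap ℂ A r) := by
        rw [← IsScalarTower.algebraMap_apply]
        exact e.commutes r
      rw [h1]
      exact isAlgebraic_algebraMap _
    | add p q hp hq =>
      rw [map_add]
      exact hp.add hq
    | mul_X p v hp =>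
      rw [map_mul]
      exact hp.mul (halg v)
  obtain ⟨y, hy0, hy⟩ := exists_mult (A := A) (ι := Option σ)
    (fun o => o.elim (e H)⁻¹ fun v => e (X v)) (by
      rintro (_ | v)
      · exact (halgp H).inv
      · exact halg v)
  obtain ⟨f0, hf0, hf0y⟩ := hAmem y.1 y.2
  have hf00 : f0 ≠ 0 := by
    rintro rfl
    rw [map_zero] at hf0y
    exact hy0 (Subtype.ext hf0y.symm)
  -- the relations
  have hrel : ∀ v : σ, ∃ g : MvPolynomial σ ℂ, g ≠ 0 ∧ (v ∉ B → g.vars ⊆ insert v B ∧ g ∈ P) := by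
    intro v
    by_cases hv : v ∈ B
    · exact ⟨1, one_ne_zero, fun h => absurd hv h⟩
    · have h1 := hB.2 v hv
      unfold IndepI at h1
      push Not at h1
      obtain ⟨g, hg1, hg2, hg3⟩ := h1
      exact ⟨g, hg3, fun _ => ⟨hg1, hg2⟩⟩
  choose g hg0 hg using hrel
  -- the choice of `c`
  have hG : f0 * ∏ v, g v ≠ 0 := mul_ne_zero hf00 (Finset.prod_ne_zero_iff.2 fun v _ => hg0 v)
  obtain ⟨a, ha⟩ : ∃ a : σ → ℂ, eval a (f0 * ∏ v, g v) ≠ 0 := by
    by_contra h
    push Not at h
    exact hG (MvPolynomial.funext fun a => by rw [h a, map_zero])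
  rw [map_mul, map_prod] at ha
  have ha0 : eval a f0 ≠ 0 := left_ne_zero_of_mul ha
  have hav : ∀ v, eval a (g v) ≠ 0 := fun v =>
    Finset.prod_ne_zero_iff.1 (right_ne_zero_of_mul ha) v (Finset.mem_univ v)
  obtain ⟨V, hV1, hV2, hV3⟩ := exists_val P e hker B hB.1 b (a b)
  have hne : ∀ f : MvPolynomial σ ℂ, eval a f ≠ 0 → sb b (a b) f ≠ 0 := by
    intro f hf h
    rw [← sb_eval b a, h, map_zero] at hf
    exact hf rfl
  -- integral elements
  have hint : ∀ x : K, IsIntegral A x → x ∈ V := by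
    intro x hx
    obtain ⟨p, hp, hpx⟩ := hx
    have hAV : ∀ y : A, (y : K) ∈ V := by
      intro y
      obtain ⟨f, hf, hfy⟩ := hAmem y.1 y.2
      rw [← hfy]
      exact hV1 f hf
    obtain ⟨i, hi⟩ : ∃ i : A →+* V, ∀ y : A, ((i y : V) : K) = y :=
      ⟨(algebraMap A K).codRestrict V.toSubring hAV, fun y => rfl⟩
    have h1 : IsIntegral V x := by
      refine ⟨p.map i, hp.map i, ?_⟩
      rw [Polynomial.eval₂_map]
      have h2 : (algebraMap V K).comp i = algebraMap A K := RingHom.ext hi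
      rw [h2]
      exact hpx
    obtain ⟨z, hz⟩ := IsIntegrallyClosed.isIntegral_iff.1 h1
    rw [← hz]
    exact z.2
  have hyV : (e f0)⁻¹ ∈ V := hV2 f0 hf0 (hne f0 ha0)
  have hmul : ∀ x : K, IsIntegral A (y • x) → x ∈ V := by
    intro x hx
    have h1 := hint _ hx
    have h2 : x = (e f0)⁻¹ * (y • x) := by
      have h3 : e f0 ≠ 0 := by
        rw [hf0y]
        intro h
        exact hy0 (Subtype.ext h)
      have h4 : y • x = e f0 * x := by
        rw [hf0y]
        rfl
      rw [h4, inv_mul_cancel_left₀ h3]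
    rw [h2]
    exact V.mul_mem _ _ hyV h1
  have hXV : ∀ v, e (X v) ∈ V := fun v => hmul _ (hy (some v))
  have hHV : (e H)⁻¹ ∈ V := hmul _ (hy none)
  have heV : ∀ p : MvPolynomial σ ℂ, e p ∈ V := by
    intro p
    induction p using MvPolynomial.induction_on with
    | C r => exact hV1 _ (by rw [vars_C]; exact Finset.empty_subset _)
    | add p q hp hq =>
      rw [map_add]
      exact V.add_mem _ _ hp hq
    | mul_X p v hp =>
      rw [map_mul]
      exact V.mul_mem _ _ hp (hXV v)
  obtain ⟨E, hE⟩ : ∃ E : MvPolynomial σ ℂ →+* V, ∀ p, ((E p : V) : K) = e p :=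
    ⟨e.toRingHom.codRestrict V.toSubring heV, fun p => rfl⟩
  have hEm : ∀ p, p ∈ (IsLocalRing.maximalIdeal V).comap E ↔ ¬ IsUnit (E p) := by
    intro p
    rw [Ideal.mem_comap, IsLocalRing.mem_maximalIdeal, mem_nonunits_iff]
  have hXb : (X b - C (a b) : MvPolynomial σ ℂ) ∈ (IsLocalRing.maximalIdeal V).comap E := by
    rw [hEm]
    have h1 : (X b - C (a b) : MvPolynomial σ ℂ).vars ⊆ B := by
      refine (vars_sub_subset _).trans ?_
      rw [vars_X, vars_C, Finset.union_empty]
      exact Finset.singleton_subset_iff.2 hb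
    have h2 : sb b (a b) (X b - C (a b)) = 0 := by
      unfold sb
      rw [map_sub, bind₁_X_right, if_pos rfl]
      simp
    have h3 := hV3 _ h1 h2 (heV _)
    have h4 : E (X b - C (a b)) = ⟨e (X b - C (a b)), heV _⟩ := Subtype.ext (hE _)
    rw [h4]
    exact h3
  have hle : P ≤ (IsLocalRing.maximalIdeal V).comap E := by
    intro p hp
    rw [hEm]
    have h1 : E p = 0 := Subtype.ext (by rw [hE, (hker p).2 hp]; rfl)
    rw [h1]
    exact not_isUnit_zero
  -- specialised relations
  have hsp : ∀ p : MvPolynomial σ ℂ, p ∈ (IsLocalRing.maximalIdeal V).comap E →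
      sb b (a b) p ∈ (IsLocalRing.maximalIdeal V).comap E := by
    intro p hp
    obtain ⟨Q, hQ⟩ : ∃ Q : Ideal (MvPolynomial σ ℂ), Q = (IsLocalRing.maximalIdeal V).comap E :=
      ⟨_, rfl⟩
    rw [← hQ] at hp hXb ⊢
    have h1 : ((Ideal.Quotient.mkₐ ℂ Q).comp (sb b (a b))) = Ideal.Quotient.mkₐ ℂ Q := by
      apply MvPolynomial.algHom_ext
      intro i
      show Ideal.Quotient.mk Q (sb b (a b) (X i)) = Ideal.Quotient.mk Q (X i)
      unfold sb
      rw [bind₁_X_right]
      split_ifs with h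
      · rw [h]
        symm
        rw [Ideal.Quotient.eq]
        exact hXb
      · rfl
    have h2 : Ideal.Quotient.mk Q (sb b (a b) p) = Ideal.Quotient.mk Q p :=
      congrArg (fun g => g p) h1
    rw [← Ideal.Quotient.eq_zero_iff_mem, h2, Ideal.Quotient.eq_zero_iff_mem]
    exact hp
  refine ⟨(IsLocalRing.maximalIdeal V).comap E, inferInstance, hle, ?_, ?_, ?_⟩
  · rw [hEm, not_not]
    have h1 : e H ≠ 0 := by
      rw [Ne, hker]
      exact hH
    refine isUnit_iff_exists_inv.2 ⟨⟨(e H)⁻¹, hHV⟩, Subtype.ext ?_⟩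
    show (E H : K) * (e H)⁻¹ = 1
    rw [hE, mul_inv_cancel₀ h1]
  · intro f hf hfP
    by_contra hf0'
    have hfB : f.vars ⊆ B := hf.trans (Finset.erase_subset _ _)
    have hbf : b ∉ f.vars := fun h => by
      have := hf h
      rw [Finset.mem_erase] at this
      exact this.1 rfl
    have h1 : (e f)⁻¹ ∈ V := hV2 f hfB (by rw [sb_self b _ hbf]; exact hf0')
    have h2 : e f ≠ 0 := fun h => hf0' (hB.1 f hfB ((hker f).1 h))
    rw [hEm] at hfP
    apply hfP
    refine isUnit_iff_exists_inv.2 ⟨⟨(e f)⁻¹, h1⟩, Subtype.ext ?_⟩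
    show (E f : K) * (e f)⁻¹ = 1
    rw [hE, mul_inv_cancel₀ h2]
  · intro v hv hI
    by_cases hvb : v = b
    · rw [hvb] at hI
      have h1 := hI (X b - C (a b)) (by
        refine (vars_sub_subset _).trans ?_
        rw [vars_X, vars_C, Finset.union_empty]
        exact Finset.singleton_subset_iff.2 (Finset.mem_insert_self _ _)) hXb
      have h2 := congrArg (eval fun _ => a b + 1) h1
      simp at h2
    · have hvB : v ∉ B := fun h => hv (Finset.mem_erase.2 ⟨hvb, h⟩)
      obtain ⟨k1, k2⟩ := hg v hvB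
      have h1 := hI (sb b (a b) (g v)) (by
        have := sb_vars b (a b) k1
        rwa [Finset.erase_insert_of_ne hvb] at this) (hsp _ (hle k2))
      exact hne _ (hav v) h1

end

theorem t_CUT1 : S_CUT1 := by
  intro σ _ _ P hP B hB b hb H hH
  have : IsDomain (MvPolynomial σ ℂ ⧸ P) := Ideal.Quotient.isDomain P
  exact main (K := FractionRing (MvPolynomial σ ℂ ⧸ P)) P
    ((IsScalarTower.toAlgHom ℂ (MvPolynomial σ ℂ ⧸ P)
      (FractionRing (MvPolynomial σ ℂ ⧸ P))).comp (Ideal.Quotient.mkₐ ℂ P)) (by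
    intro f
    show algebraMap (MvPolynomial σ ℂ ⧸ P) (FractionRing (MvPolynomial σ ℂ ⧸ P))
      (Ideal.Quotient.mk P f) = 0 ↔ _
    rw [map_eq_zero_iff _ (IsFractionRing.injective (MvPolynomial σ ℂ ⧸ P)
      (FractionRing (MvPolynomial σ ℂ ⧸ P))), Ideal.Quotient.eq_zero_iff_mem]) B hB b hb H hH

end Pool.Agent.K3h69.ET
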